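import Pool.Agent.X308.Z.Defs
import Pool.Agent.X308.G.Low
import Pool.Agent.X308.U.Pol

/-!
# Zero-cycles and polynomial identities
-/

set_option autoImplicit false

universe u v w

namespace Pool.Agent.X308.Z

open CategoryTheory Pool.Agent.H914 Pool.Agent.H914.VarClass Pool.Agent.H914.VarClass.Obj
  Pool.Agent.W492.BB Pool.Agent.W550.Corr Pool.Agent.TH133 Pool.Agent.Y148.BB Pool.Agent.X308.S

set_option linter.unusedSectionVars false

variable {k : Type u} [Field k] {𝒱 : VarClass k} {C : TheoryData.{u, v, 0} 𝒱 ℚ} {K : Type w}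
  [Field K] [hC : IsChowProj C]
  {H : WeilTheoryData.{u, v, w} C K} [hH : IsWeilProj H] {S T U X Y Z W : 𝒱.Obj}

section chow

include hC

lemma wordAct_zero (x : ℕ → C.A (U.prod U)) (w : List ℕ) : wordAct C x w 0 = 0 := by
  induction w with
  | nil => rfl
  | cons i w ih => rw [wordAct, TheoryData.act_map_zero, ih]

lemma wordAct_smul (x : ℕ → C.A (U.prod U)) (w : List ℕ) (q : ℚ) (α : C.A U) :
    wordAct C x w (q • α) = q • wordAct C x w α := by
  induction w generalizing α with
  | nil => rfl
  | cons i w ih => rw [wordAct, act_map_smul, ih, wordAct]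

lemma wordAct_replicate (x : ℕ → C.A (U.prod U)) (d : ℕ) (α : C.A U) :
    wordAct C x (List.replicate d 0) α = (C.act (x 0))^[d] α := by
  induction d generalizing α with
  | zero => rfl
  | succ d ih => rw [List.replicate_succ, wordAct, ih, Function.iterate_succ_apply]

lemma exists_point (X : 𝒱.Obj) : ∃ p : C.A X, C.Deg X.dim p ∧ HasDegree C p 1 := by
  obtain ⟨o, h1, h2, h3⟩ := exists_deg_one C X
  refine ⟨o, h1, fun Y => ⟨?_, ?_⟩⟩
  · rw [one_smul]
    exact h3 Y
  · rw [one_smul]
    exact h2 Y

/-- The map `u ↦ u × p`. -/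
lemma exists_right (U S : 𝒱.Obj) {p : C.A S} (hp : C.Deg S.dim p) :
    ∃ F : C.A (U.prod (U.prod S)), C.Deg (U.prod S).dim F ∧ ∀ u, C.act F u = C.ext u p := by
  refine ⟨C.comp (C.cograph (fst U S)) (C.mulCorr (C.pull (snd U S) p)), ?_, ?_⟩
  · refine comp_deg (cograph_mem (fst U S)) (Pool.Agent.X308.U.mulCorr_mem' (C.pull_mem (snd U S) hp)) ?_
    rw [dim_prod]
    push_cast
    ring
  · intro u
    rw [C.act_comp, C.act_cograph, C.act_mulCorr, TheoryData.ext, ch_comm C]

/-- The map `z ↦ q × z`. -/
lemma exists_left (U S : 𝒱.Obj) {q : C.A U} (hq : C.Deg U.dim q) :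
    ∃ F : C.A (S.prod (U.prod S)), C.Deg (U.prod S).dim F ∧ ∀ z, C.act F z = C.ext q z := by
  refine ⟨C.comp (C.cograph (snd U S)) (C.mulCorr (C.pull (fst U S) q)), ?_, ?_⟩
  · refine comp_deg (cograph_mem (snd U S)) (Pool.Agent.X308.U.mulCorr_mem' (C.pull_mem (fst U S) hq)) ?_
    rw [dim_prod]
    push_cast
    ring
  · intro u
    rw [C.act_comp, C.act_cograph, C.act_mulCorr, TheoryData.ext]

/-- A variety which dominates the varieties `S i`, `i ≤ n`, with orthogonal maps on the zero-cycles
of degree zero. -/
lemma exists_tower (S : ℕ → 𝒱.Obj) (n : ℕ) :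
    ∃ (U : 𝒱.Obj) (a : ∀ i, C.A ((S i).prod U)) (b : ∀ i, C.A (U.prod (S i))),
      (∀ i, C.Deg U.dim (a i) ∧ C.Deg (S i).dim (b i)) ∧
      (∀ i ≤ n, ∀ z, C.Deg (S i).dim z → (i = 0 ∨ HasDegree C z 0) →
        C.act (b i) (C.act (a i) z) = z) ∧
      ∀ i ≤ n, ∀ j ≤ n, i ≠ j → ∀ z, C.Deg (S i).dim z → (i = 0 ∨ HasDegree C z 0) →
        C.act (b j) (C.act (a i) z) = 0 := by
  induction n with
  | zero =>
    refine ⟨S 0, Function.update (fun _ => 0) 0 (dg C (S 0)),
      Function.update (fun _ => 0) 0 (dg C (S 0)), fun i => ?_, ?_, ?_⟩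
    · rcases Nat.eq_zero_or_pos i with h | h
      · subst h
        rw [Function.update_self, Function.update_self]
        exact ⟨dg_mem C (S 0), dg_mem C (S 0)⟩
      · rw [Function.update_of_ne (by omega), Function.update_of_ne (by omega)]
        exact ⟨Submodule.zero_mem _, Submodule.zero_mem _⟩
    · intro i hi z _ _
      have h : i = 0 := by omega
      subst h
      rw [Function.update_self, Function.update_self, act_dg, act_dg]
    · intro i hi j hj hij
      omega
  | succ n ih =>
    obtain ⟨U, a, b, hab, h1, h2⟩ := ih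
    obtain ⟨p, hp, hp1⟩ := exists_point (C := C) (S (n + 1))
    obtain ⟨q, hq, hq1⟩ := exists_point (C := C) U
    obtain ⟨F, hF, hF'⟩ := exists_right U (S (n + 1)) hp
    obtain ⟨G, hG, hG'⟩ := exists_left U (S (n + 1)) hq
    let V : 𝒱.Obj := U.prod (S (n + 1))
    have hfst : ∀ (u : C.A U) (z : C.A (S (n + 1))) (r : ℚ), HasDegree C z r →
        C.push (fst U (S (n + 1))) (C.ext u z) = r • u := by
      intro u z r hr
      rw [TheoryData.ext, C.proj_left, (hr U).2, mul_smul_comm, mul_one]
    have hsnd : ∀ (u : C.A U) (z : C.A (S (n + 1))) (r : ℚ), HasDegree C u r →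
        C.push (snd U (S (n + 1))) (C.ext u z) = r • z := by
      intro u z r hr
      rw [TheoryData.ext, C.proj_right, (hr _).1, smul_mul_assoc, one_mul]
    have hgf : C.graph (fst U (S (n + 1))) ∈ C.gr (V.prod U) U.dim := graph_mem' _
    have hgs : C.graph (snd U (S (n + 1))) ∈ C.gr (V.prod (S (n + 1))) (S (n + 1)).dim :=
      graph_mem' _
    have hext : C.ext (1 : C.A V) p ∈ C.gr (V.prod (S (n + 1))) (S (n + 1)).dim := by
      have := ext_mem' (C.one_mem V) hp
      rwa [zero_add] at this
    have hB : ∀ (u : C.A U) (z : C.A (S (n + 1))) (r s : ℚ), HasDegree C u r →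
        HasDegree C z s →
        C.act (C.graph (snd U (S (n + 1))) - C.ext (1 : C.A V) p) (C.ext u z) =
          r • z - (r * s) • p := by
      intro u z r s hr hs
      have h3 : HasDegree C (1 * C.ext u z) (r * s) := by
        rw [one_mul]
        exact TH829.Prime.hasDegree_ext hr hs
      rw [C.act_sub, C.act_graph, hsnd u z r hr, act_ext' h3]
    refine ⟨V, Function.update (fun i => C.comp (a i) F) (n + 1) G,
      Function.update (fun i => C.comp (C.graph (fst U (S (n + 1)))) (b i)) (n + 1)
        (C.graph (snd U (S (n + 1))) - C.ext (1 : C.A V) p), fun i => ?_, ?_, ?_⟩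
    · by_cases h : i = n + 1
      · subst h
        rw [Function.update_self, Function.update_self]
        exact ⟨hG, Submodule.sub_mem _ hgs hext⟩
      · rw [Function.update_of_ne h, Function.update_of_ne h]
        exact ⟨comp_deg (hab i).1 hF (by ring), comp_deg hgf (hab i).2 (by ring)⟩
    · intro i hi z hz hz'
      by_cases h : i = n + 1
      · subst h
        have hz0 : HasDegree C z 0 := by
          rcases hz' with h | h
          · omega
          · exact h
        rw [Function.update_self, Function.update_self, hG', hB q z 1 0 hq1 hz0, mul_zero,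
          zero_smul, sub_zero, one_smul]
      · rw [Function.update_of_ne h, Function.update_of_ne h, C.act_comp, C.act_comp, C.act_graph,
          hF', hfst _ _ 1 hp1, one_smul, h1 i (by omega) z hz hz']
    · intro i hi j hj hij z hz hz'
      by_cases h : i = n + 1
      · subst h
        have hz0 : HasDegree C z 0 := by
          rcases hz' with h | h
          · omega
          · exact h
        rw [Function.update_self, Function.update_of_ne (Ne.symm hij), C.act_comp, C.act_graph,
          hG', hfst _ _ 0 hz0, zero_smul, TheoryData.act_map_zero]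
      · by_cases h' : j = n + 1
        · subst h'
          obtain ⟨r, hr⟩ := O.exists_degree (C.act (a i) z)
          rw [Function.update_self, Function.update_of_ne h, C.act_comp, hF',
            hB _ p r 1 hr hp1, mul_one, sub_self]
        · rw [Function.update_of_ne h, Function.update_of_ne h', C.act_comp, C.act_comp,
            C.act_graph, hF', hfst _ _ 1 hp1, one_smul, h2 i (by omega) j (by omega) hij z hz hz']

end chow

end Pool.Agent.X308.Z
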