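import Pool.Agent.X308.Z.Main

/-!
# Zero-cycles and polynomial identities: the theorem
-/

set_option autoImplicit false

universe u v w

namespace Pool.Agent.X308.Z

open CategoryTheory Pool.Agent.H914 Pool.Agent.H914.VarClass Pool.Agent.H914.VarClass.Obj
  Pool.Agent.W492.BB Pool.Agent.W550.Corr Pool.Agent.TH133 Pool.Agent.Y148.BB Pool.Agent.X308.S

set_option linter.unusedSectionVars false

variable {k : Type u} [Field k] {𝒱 : VarClass k} {C : TheoryData.{u, v, 0} 𝒱 ℚ} {K : Type w}
  [Field K] [hC : IsChowProj C]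
  {H : WeilTheoryData.{u, v, w} C K} [hH : IsWeilProj H] {S T U X Y Z W : 𝒱.Obj}

include hC hH

lemma act_mem_zero {Γ : C.A (X.prod Y)} (hΓ : C.Deg Y.dim Γ) {z : C.A X} (hz : C.Deg X.dim z) :
    C.Deg Y.dim (C.act Γ z) := by
  have h1 : Γ ∈ C.gr (X.prod Y) (X.dim + ((Y.dim : ℤ) - X.dim)) := by
    have e : (X.dim : ℤ) + ((Y.dim : ℤ) - X.dim) = Y.dim := by ring
    rw [e]
    exact hΓ
  have h2 := act_mem' C h1 hz
  have e : (X.dim : ℤ) + ((Y.dim : ℤ) - X.dim) = Y.dim := by ring
  rwa [e] at h2

lemma degree_act {Γ : C.A (X.prod Y)} (hΓ : C.Deg Y.dim Γ) (h0 : H.cl Γ = 0) {z : C.A X}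
    (hz : C.Deg X.dim z) : HasDegree C (C.act Γ z) 0 := by
  apply hasDegree_zero_of_cl (H := H) (act_mem_zero (H := H) hΓ hz)
  rw [cl_act H, h0, TheoryData.act_zero]

/-- The main step. -/
theorem compositions_of_identity {f : List ℕ →₀ ℚ} (hf : SatisfyIdentity H f) {w : List ℕ}
    (hw : f w ≠ 0) : CompositionsVanish H w.length := by
  intro S Γ α hΓ hα0 hα
  set d := w.length with hdw
  obtain ⟨U, a, b, hab, h1, h2⟩ := exists_tower (C := C) S d
  have hαd : ∀ i, C.Deg (S i).dim (α i) := by
    intro i
    induction i with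
    | zero => exact hα0
    | succ i ih =>
      rw [hα i]
      exact act_mem_zero (H := H) (hΓ i).1 ih
  have hαT : ∀ i, i = 0 ∨ HasDegree C (α i) 0 := by
    intro i
    cases i with
    | zero => exact Or.inl rfl
    | succ i =>
      right
      rw [hα i]
      exact degree_act (hΓ i).1 (hΓ i).2 (hαd i)
  set Δ : ℕ → C.A (U.prod U) := fun i => C.comp (b i) (C.comp (Γ i) (a (i + 1))) with hΔ
  set x : ℕ → C.A (U.prod U) := fun j =>
    ∑ i ∈ (Finset.range d).filter (fun i => w[i]? = some j), Δ i with hx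
  have hxU : ∀ j, C.Deg U.dim (x j) ∧ H.cl (x j) = 0 := by
    intro j
    constructor
    · refine Submodule.sum_mem _ fun i _ => ?_
      exact comp_deg (hab i).2 (comp_deg (hΓ i).1 (hab (i + 1)).1 rfl) (by push_cast; ring)
    · rw [hx]
      simp only
      rw [map_sum]
      refine Finset.sum_eq_zero fun i _ => ?_
      rw [hΔ]
      simp only
      rw [cl_comp, cl_comp, (hΓ i).2, zero_comp, comp_zero]
  -- the action of the letters
  have hact : ∀ j k, k ≤ d → C.act (x j) (C.act (a k) (α k)) =
      if w[k]? = some j then C.act (a (k + 1)) (α (k + 1)) else 0 := by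
    intro j k hk
    have e1 : ∀ i ∈ (Finset.range d).filter (fun i => w[i]? = some j),
        C.act (Δ i) (C.act (a k) (α k)) =
          if i = k then C.act (a (k + 1)) (α (k + 1)) else 0 := by
      intro i hi
      rw [Finset.mem_filter, Finset.mem_range] at hi
      rw [hΔ]
      simp only
      rw [C.act_comp, C.act_comp]
      split_ifs with h
      · subst h
        rw [h1 i hk _ (hαd i) (hαT i), ← hα i]
      · rw [h2 k hk i (by omega) (Ne.symm h) _ (hαd k) (hαT k), TheoryData.act_map_zero,
          TheoryData.act_map_zero]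
    rw [hx]
    simp only
    rw [act_sum, Finset.sum_congr rfl e1]
    by_cases h : w[k]? = some j
    · rw [if_pos h, Finset.sum_eq_single k]
      · rw [if_pos rfl]
      · intro i _ hi
        rw [if_neg hi]
      · intro hk'
        exfalso
        apply hk'
        rw [Finset.mem_filter, Finset.mem_range]
        refine ⟨?_, h⟩
        have := List.getElem?_eq_some_iff.1 h
        exact this.1
    · rw [if_neg h]
      refine Finset.sum_eq_zero fun i hi => ?_
      rw [Finset.mem_filter] at hi
      rw [if_neg]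
      rintro rfl
      exact h hi.2
  -- the action of the words
  have hword : ∀ (w' : List ℕ) (k : ℕ), k ≤ d →
      C.act (b d) (wordAct C x w' (C.act (a k) (α k))) = if w' = w.drop k then α d else 0 := by
    intro w'
    induction w' with
    | nil =>
      intro k hk
      rw [wordAct]
      rcases eq_or_lt_of_le hk with h | h
      · subst h
        rw [h1 d le_rfl _ (hαd d) (hαT d), if_pos (by simp [hdw])]
      · rw [h2 k hk d le_rfl (by omega) _ (hαd k) (hαT k), if_neg]
        intro h3
        have h4 : (w.drop k).length = 0 := by rw [← h3]; rfl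
        rw [List.length_drop] at h4
        omega
    | cons j w' ih =>
      intro k hk
      rw [wordAct, hact j k hk]
      by_cases h : w[k]? = some j
      · have hkd : k < d := (List.getElem?_eq_some_iff.1 h).1
        have h5 : w.drop k = j :: w.drop (k + 1) := by
          rw [List.drop_eq_getElem_cons hkd, (List.getElem?_eq_some_iff.1 h).2]
        rw [if_pos h, ih (k + 1) (by omega), h5]
        by_cases h6 : w' = w.drop (k + 1)
        · rw [if_pos h6, if_pos (by rw [h6])]
        · rw [if_neg h6, if_neg (by simpa using h6)]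
      · rw [if_neg h, wordAct_zero, TheoryData.act_map_zero, if_neg]
        intro h3
        apply h
        have h4 : (j :: w')[0]? = (w.drop k)[0]? := by rw [h3]
        rw [List.getElem?_drop, add_zero] at h4
        rw [← h4]
        rfl
  have h3 := hf U x (C.act (a 0) (α 0)) hxU (act_mem_zero (H := H) (hab 0).1 (hαd 0))
  have h4 : C.act (b d) (polyAct C x f (C.act (a 0) (α 0))) = f w • α d := by
    rw [polyAct, Finsupp.sum, act_map_sum]
    have e1 : ∀ w' ∈ f.support, C.act (b d) (f w' • wordAct C x w' (C.act (a 0) (α 0))) =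
        if w' = w then f w • α d else 0 := by
      intro w' _
      rw [act_map_smul, hword w' 0 (Nat.zero_le _), List.drop_zero]
      split_ifs with h
      · rw [h]
      · rw [smul_zero]
    rw [Finset.sum_congr rfl e1, Finset.sum_ite_eq', if_pos (Finsupp.mem_support_iff.2 hw)]
  rw [h3, TheoryData.act_map_zero] at h4
  exact Pool.Agent.X308.U.smul_cancel hw h4.symm

theorem powers_of_compositions {d : ℕ} (h : CompositionsVanish H d) : PowersVanish H d := by
  intro U Γ α hΓ h0 hα
  exact h (fun _ => U) (fun _ => Γ) (fun i => (C.act Γ)^[i] α) (fun _ => ⟨hΓ, h0⟩) hα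
    (fun i => Function.iterate_succ_apply' _ _ _)

theorem identity_of_powers {d : ℕ} (h : PowersVanish H d) :
    ∃ (f : List ℕ →₀ ℚ) (w : List ℕ), w.length = d ∧ f w ≠ 0 ∧ SatisfyIdentity H f := by
  classical
  refine ⟨Finsupp.single (List.replicate d 0) 1, List.replicate d 0, List.length_replicate, ?_,
    ?_⟩
  · rw [Finsupp.single_eq_same]
    exact one_ne_zero
  · intro U x α hx hα
    rw [polyAct, Finsupp.sum_single_index (by rw [zero_smul]), one_smul, wordAct_replicate]
    exact h U (x 0) α (hx 0).1 (hx 0).2 hα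

/-- The Albanese kernels are zero if compositions of two homologically trivial correspondences act
as zero. -/
theorem albanese_of_compositions (hA : AlbaneseFacts H) (h : CompositionsVanish H 2) :
    AlbaneseInjective C := by
  intro X z hX hz
  obtain ⟨S, f, y, hS, hy, rfl⟩ := hA.surfaces X z hX hz
  suffices hy0 : y = 0 by
    change C.push f y = 0
    rw [hy0, map_zero]
  obtain ⟨π, hπ, hne, halb⟩ := hA.murre S hS
  have h1 := halb y hy
  have hy2 : y ∈ C.gr S 2 := by
    have := hy.deg
    rwa [hS] at this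
  have h0 : H.cl y = 0 := by
    rw [← h1, cl_act H]
    exact hne (2 * 2) _ (by norm_num) (H.cl_mem hy2)
  obtain ⟨T, g, v, hT, hv, hv0, hgv⟩ := hA.curves S y (by omega) hy.deg h0
  have hg : C.graph g ∈ C.gr (T.prod S) 2 := by
    have := graph_mem' (C := C) g
    rw [hS] at this
    exact_mod_cast this
  have hΓ : C.comp (C.graph g) π ∈ C.gr (T.prod S) 2 :=
    comp_deg hg hπ (by rw [hS]; norm_num)
  obtain ⟨Γ', h2, h3, h4⟩ := G.curve_replace hT hΓ (fun a ha => by
    rw [actH_comp]
    exact hne (1 + 2 * (2 - T.dim)) _ (by rw [hT]; norm_num)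
      (actH_deg hg ha rfl)) hv hv0
  have h5 : C.act Γ' v = y := by
    have h6 : C.push g v = y := hgv
    rw [h4, C.act_comp, C.act_graph, h6, h1]
  obtain ⟨o, ho, hd⟩ := G.exists_o (H := H) (C := C) T hT
  -- the two correspondences
  let V : ℕ → 𝒱.Obj := fun i => if i ≤ 1 then T else S
  have e0 : V 0 = T := rfl
  have e1 : V 1 = T := rfl
  have e2 : ∀ i, V (i + 2) = S := fun i => rfl
  let Γ : ∀ i, C.A ((V i).prod (V (i + 1))) := fun i =>
    match i with
    | 0 => (C.ext (1 : C.A T) v : C.A (T.prod T))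
    | 1 => (Γ' : C.A (T.prod S))
    | _ + 2 => (0 : C.A (S.prod S))
  let α : ∀ i, C.A (V i) := fun i =>
    match i with
    | 0 => (o : C.A T)
    | 1 => (v : C.A T)
    | 2 => (y : C.A S)
    | _ + 3 => (0 : C.A S)
  have hTT : (T.dim : ℤ) = 1 := by exact_mod_cast hT
  have hSS : (S.dim : ℤ) = 2 := by exact_mod_cast hS
  refine h V Γ α ?_ ?_ ?_
  · intro i
    match i with
    | 0 =>
      change C.ext (1 : C.A T) v ∈ C.gr (T.prod T) (T.dim : ℤ) ∧ H.cl (C.ext (1 : C.A T) v) = 0
      constructor
      · rw [hTT]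
        have := ext_mem' (C.one_mem T) hv
        rwa [zero_add] at this
      · rw [TheoryData.ext, map_mul, H.cl_pull (snd T T), hv0, map_zero, mul_zero]
    | 1 =>
      change Γ' ∈ C.gr (T.prod S) (S.dim : ℤ) ∧ H.cl Γ' = 0
      rw [hSS]
      exact ⟨h2, h3⟩
    | i + 2 =>
      change (0 : C.A (S.prod S)) ∈ C.gr (S.prod S) (S.dim : ℤ) ∧ H.cl (0 : C.A (S.prod S)) = 0
      exact ⟨Submodule.zero_mem _, map_zero _⟩
  · change o ∈ C.gr T (T.dim : ℤ)
    rw [hTT]
    exact ho
  · intro i
    match i with
    | 0 =>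
      change v = C.act (C.ext (1 : C.A T) v) o
      have h6 : HasDegree C (1 * o) 1 := by
        rw [one_mul]
        exact hd
      rw [act_ext' h6, one_smul]
    | 1 =>
      change y = C.act Γ' v
      rw [h5]
    | 2 =>
      change (0 : C.A S) = C.act (0 : C.A (S.prod S)) y
      rw [C.act_zero]
    | i + 3 =>
      change (0 : C.A S) = C.act (0 : C.A (S.prod S)) 0
      rw [C.act_zero]

/-- Compositions of two homologically trivial correspondences act as zero if the Albanese kernels
are zero. -/
theorem compositions_of_albanese (hA : AlbaneseFacts H) (h : AlbaneseInjective C) :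
    CompositionsVanish H 2 := by
  intro S Γ α hΓ h0 hα
  have hm1 : C.Deg (S 1).dim (α 1) := by
    rw [hα 0]
    exact act_mem_zero (H := H) (hΓ 0).1 h0
  have hd1 : HasDegree C (α 1) 0 := by
    rw [hα 0]
    exact degree_act (hΓ 0).1 (hΓ 0).2 h0
  have hm2 : C.Deg (S 2).dim (α 2) := by
    rw [hα 1]
    exact act_mem_zero (H := H) (hΓ 1).1 hm1
  have hAlb : InAlbKer C (α 2) := by
    refine ⟨hm2, fun Y W hW => ?_⟩
    have h1 : C.comp (Γ 1) W ∈ C.gr ((S 1).prod Y) 1 :=
      comp_deg (hΓ 1).1 hW (by push_cast; ring)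
    obtain ⟨a, b, ha, hb, hab⟩ := hA.divisors (S 1) Y _ h1 (by
      rw [cl_comp, (hΓ 1).2, zero_comp])
    rw [hα 1, ← C.act_comp, hab, C.act_add]
    have h2 : HasDegree C (1 * α 1) 0 := by
      rw [one_mul]
      exact hd1
    rw [act_ext' h2, zero_smul, add_zero]
    exact act_ext_zero_of_lt (C.mul_mem ha hm1) (by omega)
  have hcl : H.cl (α 2) = 0 := by
    rw [hα 1, cl_act H, (hΓ 1).2, TheoryData.act_zero]
  rcases Nat.lt_or_ge (S 2).dim 2 with hlt | hge
  · rcases Nat.lt_or_ge (S 2).dim 1 with h1 | h1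
    · have e : (S 2).dim = 0 := by omega
      have hm0 : C.Deg 0 (α 2) := by
        have := hm2
        rw [e] at this
        exact_mod_cast this
      obtain ⟨q, hq⟩ := hC.gr_zero (S 2) (α 2) hm0
      have h3 : q = 0 := by
        by_contra hq0
        have h4 : H.cl (1 : C.A (S 2)) = 0 := by
          have h5 : (1 : C.A (S 2)) = q⁻¹ • α 2 := by
            rw [hq, smul_smul, inv_mul_cancel₀ hq0, one_smul]
          rw [h5, Algebra.smul_def, map_mul, hcl, mul_zero]
        rw [map_one] at h4
        exact hH.one_ne_zero (S 2) h4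
      rw [hq, h3, zero_smul]
    · have e : (S 2).dim = 1 := by omega
      have h3 := hAlb.act_eq_zero (S 2) (dg C (S 2)) (by
        have := dg_mem C (S 2)
        rw [e] at this
        exact_mod_cast this)
      rwa [act_dg] at h3
  · exact h (S 2) (α 2) hge hAlb

/-- **Main theorem.** -/
theorem albanese_iff (hA : AlbaneseFacts H) :
    List.TFAE [AlbaneseInjective C, ActionsCommute H, CompositionsVanish H 2, PowersVanish H 2,
      ∃ (f : List ℕ →₀ ℚ) (w : List ℕ), w.length = 2 ∧ f w ≠ 0 ∧ SatisfyIdentity H f] := by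
  tfae_have 1 → 3 := compositions_of_albanese hA
  tfae_have 3 → 1 := albanese_of_compositions hA
  tfae_have 3 → 4 := powers_of_compositions
  tfae_have 4 → 5 := identity_of_powers
  tfae_have 5 → 3 := by
    rintro ⟨f, w, hw2, hw, hf⟩
    rw [← hw2]
    exact compositions_of_identity hf hw
  tfae_have 3 → 2 := by
    intro h U Γ Γ' α hΓ h0 hΓ' h0' hα
    have key : ∀ Δ Δ' : C.A (U.prod U), C.Deg U.dim Δ → H.cl Δ = 0 → C.Deg U.dim Δ' →
        H.cl Δ' = 0 → C.act Δ (C.act Δ' α) = 0 := by
      intro Δ Δ' h1 h2 h3 h4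
      refine h (fun _ => U) (fun i => if i = 0 then Δ' else Δ)
        (fun i => Nat.rec α (fun i β => C.act (if i = 0 then Δ' else Δ) β) i) ?_ hα ?_
      · intro i
        split_ifs
        · exact ⟨h3, h4⟩
        · exact ⟨h1, h2⟩
      · intro i
        rfl
    rw [key Γ Γ' hΓ h0 hΓ' h0', key Γ' Γ hΓ' h0' hΓ h0]
  tfae_have 2 → 5 := by
    intro h
    classical
    refine ⟨Finsupp.single [0, 1] 1 - Finsupp.single [1, 0] 1, [0, 1], rfl, ?_, ?_⟩
    · rw [Finsupp.sub_apply, Finsupp.single_eq_same, Finsupp.single_apply, if_neg (by decide)]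
      norm_num
    · intro U x α hx hα
      have h1 : polyAct C x (Finsupp.single [0, 1] 1 - Finsupp.single [1, 0] 1) α =
          polyAct C x (Finsupp.single [0, 1] 1) α - polyAct C x (Finsupp.single [1, 0] 1) α := by
        rw [polyAct, polyAct, polyAct, Finsupp.sum_sub_index]
        intro w a b
        rw [sub_smul]
      rw [h1, polyAct, polyAct, Finsupp.sum_single_index (by rw [zero_smul]),
        Finsupp.sum_single_index (by rw [zero_smul]), one_smul, one_smul]
      change C.act (x 1) (C.act (x 0) α) - C.act (x 0) (C.act (x 1) α) = 0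
      rw [h U (x 1) (x 0) α (hx 1).1 (hx 1).2 (hx 0).1 (hx 0).2 hα, sub_self]
  tfae_finish

end Pool.Agent.X308.Z
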