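import Pool.Agent.X308.S.AlbDefs
import Mathlib.Data.Finsupp.Basic

/-!
# Zero-cycles and polynomial identities: definitions
-/

set_option autoImplicit false

universe u v w

namespace Pool.Agent.X308.Z

open Pool.Agent.H914 Pool.Agent.W492.BB Pool.Agent.X308.S

variable {k : Type u} [Field k] {𝒱 : VarClass k} (C : TheoryData.{u, v, 0} 𝒱 ℚ)

/-- The Albanese kernels of all varieties are zero (the kernel is zero for trivial reasons if the
dimension is at most one). -/
def AlbaneseInjective : Prop := ∀ (X : 𝒱.Obj) (z : C.A X), 2 ≤ X.dim → InAlbKer C z → z = 0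

/-- The action of the monomial `w` in the self-correspondences `x 0, x 1, …` of `U` on a cycle
(the first letter of `w` acts first). -/
noncomputable def wordAct {U : 𝒱.Obj} (x : ℕ → C.A (U.prod U)) : List ℕ → C.A U → C.A U
  | [], α => α
  | i :: w, α => wordAct x w (C.act (x i) α)

/-- The action of the noncommutative polynomial `f` (with rational coefficients, `f w` is the
coefficient of the monomial `w`) in the self-correspondences `x 0, x 1, …` of `U`. -/
noncomputable def polyAct {U : 𝒱.Obj} (x : ℕ → C.A (U.prod U)) (f : List ℕ →₀ ℚ) (α : C.A U) :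
    C.A U :=
  f.sum fun w c => c • wordAct C x w α

variable {C} {K : Type w} [Field K] (H : WeilTheoryData.{u, v, w} C K)

/-- Known facts on divisors, zero-cycles and surfaces over an algebraically closed field:

* homologically trivial divisors on a product `X × Y` are sums of pull-backs from `X` and `Y`;
* a homologically trivial zero-cycle on a variety of positive dimension is the push-forward of a
  homologically trivial zero-cycle on a curve;
* a zero-cycle in the Albanese kernel of a variety of dimension at least two is the push-forward of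
  a zero-cycle in the Albanese kernel of a surface;
* Murre's projector `π_2` of a surface acts as the identity on the Albanese kernel and as zero on
  `H^m(S)` for `m ≠ 2`. -/
structure AlbaneseFacts : Prop where
  divisors : ∀ (X Y : 𝒱.Obj) (D : C.A (X.prod Y)), C.Deg 1 D → H.cl D = 0 →
    ∃ (a : C.A X) (b : C.A Y), C.Deg 1 a ∧ C.Deg 1 b ∧ D = C.ext a 1 + C.ext 1 b
  curves : ∀ (X : 𝒱.Obj) (z : C.A X), 1 ≤ X.dim → C.Deg X.dim z → H.cl z = 0 →
    ∃ (T : 𝒱.Obj) (f : T ⟶ X) (w : C.A T), T.dim = 1 ∧ C.Deg 1 w ∧ H.cl w = 0 ∧ C.down f w = z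
  surfaces : ∀ (X : 𝒱.Obj) (z : C.A X), 2 ≤ X.dim → InAlbKer C z →
    ∃ (S : 𝒱.Obj) (f : S ⟶ X) (w : C.A S), S.dim = 2 ∧ InAlbKer C w ∧ C.down f w = z
  murre : ∀ S : 𝒱.Obj, S.dim = 2 → ∃ π : C.A (S.prod S), C.Deg 2 π ∧
    (∀ (m : ℤ) (a : H.A S), m ≠ 2 → H.Deg m a → H.act (H.cl π) a = 0) ∧
    ∀ z : C.A S, InAlbKer C z → C.act π z = z

/-- The composition of any `d` homologically trivial correspondences
`Γ 0 ∈ CH^(dim S 1)(S 0 × S 1)`, `Γ 1 ∈ CH^(dim S 2)(S 1 × S 2)`, … acts as zero on the
zero-cycles on `S 0`. -/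
def CompositionsVanish (d : ℕ) : Prop :=
  ∀ (S : ℕ → 𝒱.Obj) (Γ : ∀ i, C.A ((S i).prod (S (i + 1)))) (α : ∀ i, C.A (S i)),
    (∀ i, C.Deg (S (i + 1)).dim (Γ i) ∧ H.cl (Γ i) = 0) → C.Deg (S 0).dim (α 0) →
      (∀ i, α (i + 1) = C.act (Γ i) (α i)) → α d = 0

/-- For all `U` and all homologically trivial self-correspondences in `CH^(dim U)(U × U)` the `d`-th
power acts as zero on the zero-cycles. -/
def PowersVanish (d : ℕ) : Prop :=
  ∀ (U : 𝒱.Obj) (Γ : C.A (U.prod U)) (α : C.A U), C.Deg U.dim Γ → H.cl Γ = 0 →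
    C.Deg U.dim α → (C.act Γ)^[d] α = 0

/-- For all `U` the actions on the zero-cycles on `U` of the homologically trivial
self-correspondences in `CH^(dim U)(U × U)` satisfy the polynomial identity `f = 0`. -/
def SatisfyIdentity (f : List ℕ →₀ ℚ) : Prop :=
  ∀ (U : 𝒱.Obj) (x : ℕ → C.A (U.prod U)) (α : C.A U),
    (∀ i, C.Deg U.dim (x i) ∧ H.cl (x i) = 0) → C.Deg U.dim α → polyAct C x f α = 0

/-- For all `U` the actions on the zero-cycles on `U` of any two homologically trivial
self-correspondences in `CH^(dim U)(U × U)` commute. -/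
def ActionsCommute : Prop :=
  ∀ (U : 𝒱.Obj) (Γ Γ' : C.A (U.prod U)) (α : C.A U), C.Deg U.dim Γ → H.cl Γ = 0 →
    C.Deg U.dim Γ' → H.cl Γ' = 0 → C.Deg U.dim α → C.act Γ (C.act Γ' α) = C.act Γ' (C.act Γ α)

end Pool.Agent.X308.Z
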